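import Pool.Agent.Helper185.SilverFinal

/-!
If one of the two Borel omega-cover selection properties is preserved by finite powers, then
the continuum hypothesis fails.
-/

namespace Pool.Agent.Results.MP_c8e566_gt.PreservationRefutesCH

open Pool.Agent.Helper185.Sel

/-- If `S₁(B_Ω, B_Ω)` is preserved by finite powers, or if `S_fin(B_Ω, B_Ω)` is preserved by
finite powers, then the continuum hypothesis fails. -/
theorem result :
    ((∀ X : Set ℝ, S1 (OmegaOf (BorelFam X)) (OmegaOf (BorelFam X)) →
        ∀ k : ℕ, 1 ≤ k →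
          S1 (OmegaOf (BorelFam (Fin k → X))) (OmegaOf (BorelFam (Fin k → X)))) ∨
      (∀ X : Set ℝ, Sfin (OmegaOf (BorelFam X)) (OmegaOf (BorelFam X)) →
        ∀ k : ℕ, 1 ≤ k →
          Sfin (OmegaOf (BorelFam (Fin k → X))) (OmegaOf (BorelFam (Fin k → X))))) →
      Cardinal.aleph 1 ≠ Cardinal.continuum.{0} := by
  intro h hCH
  obtain ⟨X, ⟨_, h2, h3⟩, _, h5, h6⟩ := Pool.Agent.Helper185.Silver.powers hCH
  rcases h with h | h
  · exact h5 (h X h2 2 (by norm_num))
  · exact h6 (h X h3 2 (by norm_num))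

end Pool.Agent.Results.MP_c8e566_gt.PreservationRefutesCH
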